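import Pool.Agent.Q70.AfJ

/-!
# Affine maps between `×p`, `×q` invariant measures

Let `p ≠ q` be primes (for instance `2` and `3`) and `T = ℝ / ℤ`. Nothing is assumed on entropy.

1. Let `μ`, `ν` be invariant, one of them singular to Lebesgue measure. A Borel map `f` with
   `b f(x) = a x + t` for `μ`-almost every `x`, where the integers `a, b ≠ 0` and the point `t` may
   depend on `x`, `t` in a countable set without torsion points of order prime to `p q`, maps `μ`
   to a measure singular to `ν`. For instance the translates of an invariant `μ` which is singular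
   to Lebesgue measure by irrational angles, and by fractions in lowest terms whose denominator is
   divisible by `p` or by `q`, are singular to `μ`.
2. If `μ`, `ν` are totally ergodic, then every affine map `x ↦ n x + t`, `n ≠ 0`, maps `μ` to `ν`
   or to a measure singular to `ν`.
3. If `ν` is invariant and singular to Lebesgue measure then the translations which preserve `ν`
   are those by the multiples of `1 / m`, for some `m ≥ 1` prime to `p q`; so the affine maps with a
   given slope which map a measure `μ` to `ν` are none or the `m` translates of one of them.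
4. The slopes of the affine maps which map an atomless `μ` to a `ν` which is not Lebesgue measure
   have upper Banach density zero.
5. Furstenberg's conjecture for `p`, `q` holds if and only if the atomless invariant measures which
   are singular to Lebesgue measure stay away from it in the weak topology.
-/

set_option autoImplicit false

open MeasureTheory Set

namespace Pool.Agent.Results.MP_e27144_an.AffineMaps

/-- `μ` is invariant under `x ↦ p x` and `x ↦ q x`. -/
def Invariant (p q : ℕ) (μ : Measure UnitAddCircle) : Prop :=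
  MeasurePreserving (fun x : UnitAddCircle => p • x) μ μ ∧
    MeasurePreserving (fun x : UnitAddCircle => q • x) μ μ

/-- Ergodicity for the joint action of `x ↦ p x` and `x ↦ q x`. -/
def JointlyErgodic (p q : ℕ) (μ : Measure UnitAddCircle) : Prop :=
  ∀ E : Set UnitAddCircle, MeasurableSet E → (fun x : UnitAddCircle => p • x) ⁻¹' E = E →
    (fun x : UnitAddCircle => q • x) ⁻¹' E = E → μ E = 0 ∨ μ E = 1

/-- Total ergodicity: ergodicity for the joint action of `x ↦ p ^ M x` and `x ↦ q ^ M x`, `M ≥ 1`. -/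
def TotallyErgodic (p q : ℕ) (μ : Measure UnitAddCircle) : Prop :=
  ∀ M : ℕ, 1 ≤ M → JointlyErgodic (p ^ M) (q ^ M) μ

theorem result (p q : ℕ) (hp : p.Prime) (hq : q.Prime) (hpq : p ≠ q) :
    -- 1. maps with displacements which are not torsion points of order prime to `p q`
    (∀ μ ν : Measure UnitAddCircle, IsProbabilityMeasure μ → IsProbabilityMeasure ν →
      Invariant p q μ → Invariant p q ν → (μ ⟂ₘ volume ∨ ν ⟂ₘ volume) →
      ∀ C : Set UnitAddCircle, C.Countable →
        (∀ t ∈ C, ∀ s : ℕ, 1 ≤ s → s.Coprime (p * q) → s • t ≠ 0) →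
      ∀ f : UnitAddCircle → UnitAddCircle, Measurable f →
        (∀ᵐ x ∂μ, ∃ a b : ℤ, a ≠ 0 ∧ b ≠ 0 ∧ ∃ t ∈ C, b • f x = a • x + t) →
        μ.map f ⟂ₘ ν) ∧
    -- 2. the zero-one law
    (∀ μ ν : Measure UnitAddCircle, IsProbabilityMeasure μ → IsProbabilityMeasure ν →
      Invariant p q μ → Invariant p q ν → TotallyErgodic p q μ → TotallyErgodic p q ν →
      ∀ n : ℤ, n ≠ 0 → ∀ t : UnitAddCircle,
        μ.map (fun x : UnitAddCircle => n • x + t) = ν ∨
        μ.map (fun x : UnitAddCircle => n • x + t) ⟂ₘ ν) ∧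
    -- 3. the affine maps with a given slope between two measures
    (∀ ν : Measure UnitAddCircle, IsProbabilityMeasure ν → Invariant p q ν → ν ⟂ₘ volume →
      ∃ m : ℕ, 1 ≤ m ∧ m.Coprime (p * q) ∧
        (∀ t : UnitAddCircle, ν.map (fun x : UnitAddCircle => x + t) = ν ↔ m • t = 0) ∧
        ∀ (μ : Measure UnitAddCircle) (n : ℤ) (t t' : UnitAddCircle),
          μ.map (fun x : UnitAddCircle => n • x + t) = ν →
          (μ.map (fun x : UnitAddCircle => n • x + t') = ν ↔ m • t' = m • t)) ∧
    -- 4. the slopes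
    (∀ μ ν : Measure UnitAddCircle, IsProbabilityMeasure μ → IsProbabilityMeasure ν →
      (∀ x, μ {x} = 0) → ν ≠ volume → ∀ ε : ℝ, 0 < ε → ∃ L₀ : ℕ, ∀ L : ℕ, L₀ ≤ L → ∀ M : ℤ,
        (({n : ℤ | ∃ t : UnitAddCircle, μ.map (fun x : UnitAddCircle => n • x + t) = ν} ∩
          Ico M (M + L)).ncard : ℝ) ≤ ε * L) ∧
    -- 5. the conjecture near Lebesgue measure
    ((∀ μ : Measure UnitAddCircle, IsProbabilityMeasure μ → Invariant p q μ →
        (∀ x, μ {x} = 0) → μ = volume) ↔
      ∃ (K : ℕ) (ε : ℝ), 0 < ε ∧ ∀ μ : Measure UnitAddCircle, IsProbabilityMeasure μ →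
        Invariant p q μ → (∀ x, μ {x} = 0) → μ ⟂ₘ volume →
        ∃ k : ℕ, 1 ≤ k ∧ k ≤ K ∧ ε ≤ ‖∫ x, fourier (k : ℤ) x ∂μ‖) := by
  refine ⟨?_, ?_, ?_, ?_, ?_⟩
  · intro μ ν hμ hν hμi hνi hs C hC hCt f hf hfC
    exact Q70.Af.maps hp hq hpq hμi hνi hs hC
      (fun t ht ⟨s, hs1, hs2, hs3⟩ => hCt t ht s hs1 hs2 hs3) hf hfC
  · intro μ ν hμ hν hμi hνi hμe hνe n hn t
    exact Q70.Af.zero_one_je hp hq hpq hμi hνi hμe hνe hn t
  · intro ν hν hνi hs
    obtain ⟨m, hm1, hmc, hm⟩ := Q70.Af.stab_sing hp hq hpq hνi hs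
    exact ⟨m, hm1, hmc, hm, fun μ n t t' h => Q70.Af.stab_aff hm n t t' h⟩
  · intro μ ν hμ hν ha hne ε hε
    exact Q70.Af.slopes ha hne hε
  · exact Q70.Af.local_iff hp.two_le hq.two_le

end Pool.Agent.Results.MP_e27144_an.AffineMaps
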