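import Pool.Agent.Q190.OA.K

/-! # One arc, and one inequality, suffice for Furstenberg's conjecture

Let `p ≠ q` be primes (`p = 2`, `q = 3` in the problem).  For every proper arc `I` of the circle the
conjecture for `p, q` is equivalent to `μ(I) ≤ |I|` for all atomless invariant probability measures
`μ`, and also to `μ(I) ≥ |I|` for all of them.  The same holds for every step function whose mean
is wrong for at least one invariant probability measure, atoms allowed.
-/

set_option autoImplicit false

open MeasureTheory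

namespace Pool.Agent.Results.MP_e27144_an.OneArcSuffices

/-- Invariance under `x ↦ n x`. -/
def Invariant (n : ℕ) (μ : Measure UnitAddCircle) : Prop := μ.map (fun x => n • x) = μ

/-- The atomless probability measures invariant under `x ↦ p x` and `x ↦ q x`. -/
def Admissible (p q : ℕ) (μ : Measure UnitAddCircle) : Prop :=
  IsProbabilityMeasure μ ∧ (∀ x, μ {x} = 0) ∧ Invariant p μ ∧ Invariant q μ

/-- Lebesgue measure is the only admissible measure: the conjecture for `p` and `q`. -/
def Rigid (p q : ℕ) : Prop := ∀ μ : Measure UnitAddCircle, Admissible p q μ → μ = volume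

/-- The arc from `a` to `b`: the points `y` modulo one with `a ≤ y < b`. -/
def arc (a b : ℝ) : Set UnitAddCircle := (fun y : ℝ => (y : UnitAddCircle)) '' Set.Ico a b

theorem pres {n : ℕ} {μ : Measure UnitAddCircle} (h : Invariant n μ) :
    MeasurePreserving (fun x : UnitAddCircle => n • x) μ μ :=
  ⟨(continuous_nsmul n).measurable, h⟩

theorem ok {p q : ℕ} {μ : Measure UnitAddCircle} (h : Admissible p q μ) : Q241.FP.Ok {p, q} μ := by
  refine ⟨h.1, fun s hs => ?_, h.2.1⟩
  rw [Finset.mem_insert, Finset.mem_singleton] at hs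
  rcases hs with rfl | rfl
  · exact pres h.2.2.1
  · exact pres h.2.2.2

theorem adm {p q : ℕ} {μ : Measure UnitAddCircle} (h : Q241.FP.Ok {p, q} μ) : Admissible p q μ :=
  ⟨h.prob, h.atomless, (h.inv p (by simp)).map_eq, (h.inv q (by simp)).map_eq⟩

theorem steps {p q : ℕ} (hp : p.Prime) (hq : q.Prime) (hpq : p ≠ q) (n : ℕ) (w a b : Fin n → ℝ)
    (h : ∀ i, a i ≤ b i ∧ b i ≤ a i + 1)
    (hν : ∃ ν : Measure UnitAddCircle, IsProbabilityMeasure ν ∧ Invariant p ν ∧ Invariant q ν ∧
      ∑ i, w i * ν.real (arc (a i) (b i)) ≠ ∑ i, w i * (b i - a i)) :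
    Rigid p q ↔ ∀ μ : Measure UnitAddCircle, Admissible p q μ →
      ∑ i, w i * (b i - a i) ≤ ∑ i, w i * μ.real (arc (a i) (b i)) := by
  constructor
  · intro hR μ hμ
    have hprob := hμ.1
    have h1 := hR μ hμ
    refine le_of_eq (Finset.sum_congr rfl fun i _ => ?_)
    have h2 := Q190.OA.arc_real μ (a i) (b i) (h i).1 (h i).2
    -- the integrals of the translates of the sawtooth against Lebesgue measure agree
    have h3 : ∀ s : ℝ, ∫ y, Q190.OB.sw (y - s) ∂(Q190.OA.rho μ) = ∫ y, Q190.OB.sw y ∂(Q190.OA.rho μ) := by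
      intro s
      have hN := Q190.OA.nice_sub Q190.OA.sw_nice s
      rw [Q190.OA.int_rho _ hN.m, Q190.OA.int_rho _ Q190.OA.sw_meas, h1]
      have h4 := integral_add_right_eq_self (μ := (volume : Measure UnitAddCircle))
        (fun x : UnitAddCircle => Q190.OB.sw (Q190.OA.fr x)) ((-s : ℝ) : UnitAddCircle)
      rw [← h4]
      refine integral_congr_ae (Filter.Eventually.of_forall fun x => ?_)
      have h5 := Q190.OA.g_fr Q190.OA.sw_nice.per (x + ((-s : ℝ) : UnitAddCircle)) (Q190.OA.fr x - s)
        (by rw [sub_eq_add_neg, AddCircle.coe_add, Q190.OA.coe_fr])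
      simp only
      rw [h5]
    have h4 : μ.real (arc (a i) (b i)) = b i - a i := by
      show μ.real (Q190.OA.arc (a i) (b i)) = _
      rw [h2, h3, h3, sub_self, add_zero]
    rw [h4]
  · intro H μ hμ
    obtain ⟨ν, hν1, hν2, hν3, hν4⟩ := hν
    refine Q190.OA.main hp hq hpq Finset.univ (Sum.elim w fun i => -w i) (Sum.elim a b) ν
      (pres hν2) (pres hν3) ?_ (fun μ' hμ' => ?_) μ (ok hμ)
    · rw [Q190.OA.Te_step ν n w a b h]
      exact sub_ne_zero.2 hν4
    · have := hμ'.prob
      rw [Q190.OA.Te_step μ' n w a b h, sub_nonneg]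
      exact H μ' (adm hμ')

theorem dirac_inv (n : ℕ) : Invariant n (Measure.dirac (0 : UnitAddCircle)) := by
  unfold Invariant
  have hm : Measurable (fun x : UnitAddCircle => n • x) := (continuous_nsmul n).measurable
  rw [Measure.map_dirac' hm, nsmul_zero]

theorem dirac_ne (a b : ℝ) (h1 : a < b) (h2 : b < a + 1) :
    (Measure.dirac (0 : UnitAddCircle)).real (arc a b) ≠ b - a := by
  have hm : MeasurableSet (arc a b) := Q190.OA.arc_meas a b h1.le h2.le
  rw [measureReal_def, Measure.dirac_apply' _ hm]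
  by_cases h : (0 : UnitAddCircle) ∈ arc a b
  · rw [Set.indicator_of_mem h]
    simp
    intro h3; linarith
  · rw [Set.indicator_of_notMem h]
    simp
    intro h3; linarith

theorem result :
    -- (1) the problem `p = 2`, `q = 3` and the digit zero in base two
    (Rigid 2 3 ↔ ∀ μ : Measure UnitAddCircle, Admissible 2 3 μ → μ.real (arc 0 (1 / 2)) ≤ 1 / 2) ∧
    -- (2) all arcs, for all pairs of primes
    (∀ p q : ℕ, p.Prime → q.Prime → p ≠ q → ∀ a b : ℝ, a < b → b < a + 1 →
      (Rigid p q ↔ ∀ μ : Measure UnitAddCircle, Admissible p q μ → μ.real (arc a b) ≤ b - a) ∧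
      (Rigid p q ↔ ∀ μ : Measure UnitAddCircle, Admissible p q μ → b - a ≤ μ.real (arc a b))) ∧
    -- (3) all step functions
    (∀ p q : ℕ, p.Prime → q.Prime → p ≠ q → ∀ (n : ℕ) (w a b : Fin n → ℝ),
      (∀ i, a i ≤ b i ∧ b i ≤ a i + 1) →
      (∃ ν : Measure UnitAddCircle, IsProbabilityMeasure ν ∧ Invariant p ν ∧ Invariant q ν ∧
        ∑ i, w i * ν.real (arc (a i) (b i)) ≠ ∑ i, w i * (b i - a i)) →
      (Rigid p q ↔ ∀ μ : Measure UnitAddCircle, Admissible p q μ →
        ∑ i, w i * (b i - a i) ≤ ∑ i, w i * μ.real (arc (a i) (b i)))) := by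
  have h2 : ∀ p q : ℕ, p.Prime → q.Prime → p ≠ q → ∀ a b : ℝ, a < b → b < a + 1 →
      (Rigid p q ↔ ∀ μ : Measure UnitAddCircle, Admissible p q μ → μ.real (arc a b) ≤ b - a) ∧
      (Rigid p q ↔ ∀ μ : Measure UnitAddCircle, Admissible p q μ → b - a ≤ μ.real (arc a b)) := by
    intro p q hp hq hpq a b hab hba
    have hd := dirac_ne a b hab hba
    constructor
    · rw [steps hp hq hpq 1 (fun _ => -1) (fun _ => a) (fun _ => b) (fun _ => ⟨hab.le, hba.le⟩)
        ⟨Measure.dirac 0, inferInstance, dirac_inv p, dirac_inv q, by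
          simp only [Finset.univ_unique, Finset.sum_singleton]
          intro h
          apply hd
          linarith⟩]
      refine forall_congr' fun μ => forall_congr' fun _ => ?_
      simp only [Finset.univ_unique, Finset.sum_singleton]
      constructor <;> intro h <;> linarith
    · rw [steps hp hq hpq 1 (fun _ => 1) (fun _ => a) (fun _ => b) (fun _ => ⟨hab.le, hba.le⟩)
        ⟨Measure.dirac 0, inferInstance, dirac_inv p, dirac_inv q, by
          simp only [Finset.univ_unique, Finset.sum_singleton, one_mul]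
          exact hd⟩]
      refine forall_congr' fun μ => forall_congr' fun _ => ?_
      simp only [Finset.univ_unique, Finset.sum_singleton, one_mul]
  refine ⟨?_, h2, fun p q hp hq hpq n w a b h hν => steps hp hq hpq n w a b h hν⟩
  have h3 := (h2 2 3 Nat.prime_two Nat.prime_three (by norm_num) 0 (1 / 2) (by norm_num) (by norm_num)).1
  rw [sub_zero] at h3
  exact h3

end Pool.Agent.Results.MP_e27144_an.OneArcSuffices
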