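import Pool.Agent.Q241.FP.B

/-! # One non-positive Fourier coefficient suffices

Let `S` be a finite set of positive integers, not all equal to one, and let `a_n > 0` be the terms
of any convergent series.  We consider the atomless probability measures `μ` on the circle which
are invariant under `x ↦ s x` for all `s` in `S` (`S = {2, 3}` in the problem).  The statement that
Lebesgue measure is the only one is equivalent to each of the following:

* every such `μ` has a frequency `n ≥ 1` whose Fourier coefficient has real part `≤ 0`;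
* for every such `μ` which is singular to Lebesgue measure and has real nonnegative Fourier
  coefficients, and every `κ > 0`, there is `n ≥ 1` with `μ^(n) < κ a_n`.

So if the conjecture is false there are counterexamples, singular to Lebesgue measure, all of whose
Fourier coefficients are positive and decay as slowly as a convergent series allows.  For
`S = {2, 3}` the lower bound `κ a_m` for `m` coprime to `6` holds at all frequencies `2^i 3^j m`.

Idea of the proof.  The class of these measures is closed under convolution with the reflected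
measure (coefficients `|μ^(n)|²`), under dilations (coefficients `μ^(mn)`), under countable mixtures,
and under lifting along `x ↦ d x` for `d` coprime to `S` (coefficients `μ^(n/d)`, or zero if `d`
does not divide `n`).  If `μ^(n₀) ≠ 0`, then for every `n = d s`, with `d` coprime to the product `P`
of `S` and `s` dividing `P^n`, the lift along `d` of a dilation has coefficient `|μ^(n₀)|²` at `n`.
-/

open MeasureTheory

namespace Pool.Agent.Results.MP_e27144_an.OneNonpositiveCoefficient

/-- The atomless probability measures on the circle invariant under `x ↦ s x`, `s` in `S`. -/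
def Admissible (S : Finset ℕ) (μ : Measure UnitAddCircle) : Prop :=
  IsProbabilityMeasure μ ∧ (∀ x, μ {x} = 0) ∧
    ∀ s ∈ S, MeasurePreserving (fun x : UnitAddCircle => s • x) μ μ

/-- The Fourier coefficient `∫ exp(2 π i n x) dμ(x)`. -/
noncomputable def coef (μ : Measure UnitAddCircle) (n : ℤ) : ℂ := ∫ x, (fourier n x : ℂ) ∂μ

/-- All Fourier coefficients are real and nonnegative. -/
def NonnegCoef (μ : Measure UnitAddCircle) : Prop :=
  ∀ n : ℤ, (coef μ n).im = 0 ∧ 0 ≤ (coef μ n).re

/-- Lebesgue measure is the only admissible measure; for `S = {2, 3}` this is the conjecture. -/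
def Rigid (S : Finset ℕ) : Prop := ∀ μ, Admissible S μ → μ = volume

theorem ok {S : Finset ℕ} {μ : Measure UnitAddCircle} (h : Admissible S μ) : Q241.FP.Ok S μ :=
  ⟨h.1, h.2.2, h.2.1⟩

theorem adm {S : Finset ℕ} {μ : Measure UnitAddCircle} (h : Q241.FP.Ok S μ) : Admissible S μ :=
  ⟨h.prob, h.atomless, h.inv⟩

theorem exists_bad {S : Finset ℕ} (hS : ∀ s ∈ S, 1 ≤ s) (h2 : ∃ s ∈ S, 2 ≤ s) {a : ℕ → ℝ}
    (ha : ∀ n, 0 < a n) (hsum : Summable a) (h : ¬ Rigid S) :
    ∃ ν, Admissible S ν ∧ NonnegCoef ν ∧ Measure.MutuallySingular ν volume ∧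
      ∃ κ : ℝ, 0 < κ ∧ ∀ n : ℕ, 1 ≤ n → κ * a n ≤ (coef ν n).re := by
  rw [Rigid] at h
  push Not at h
  obtain ⟨μ, hμ, hne⟩ := h
  obtain ⟨ν, h3, h4, h5, h6⟩ := Q241.FP.main hS h2 ha hsum (ok hμ) hne
  exact ⟨ν, adm h3, h4, h5, h6⟩

theorem result :
    (∀ S : Finset ℕ, (∀ s ∈ S, 1 ≤ s) → (∃ s ∈ S, 2 ≤ s) →
      (Rigid S ↔ ∀ μ, Admissible S μ → ∃ n : ℕ, 1 ≤ n ∧ (coef μ n).re ≤ 0) ∧
      ∀ a : ℕ → ℝ, (∀ n, 0 < a n) → Summable a →
        (Rigid S ↔ ∀ μ, Admissible S μ → Measure.MutuallySingular μ volume → NonnegCoef μ →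
          ∀ κ : ℝ, 0 < κ → ∃ n : ℕ, 1 ≤ n ∧ (coef μ n).re < κ * a n)) ∧
    (∀ a : ℕ → ℝ, (∀ n, 0 < a n) → Summable a →
      (¬ Rigid {2, 3} ↔ ∃ μ, Admissible {2, 3} μ ∧ Measure.MutuallySingular μ volume ∧
        NonnegCoef μ ∧ ∃ κ : ℝ, 0 < κ ∧ ∀ i j m : ℕ, 1 ≤ m →
          κ * a m ≤ (coef μ ((2 ^ i * 3 ^ j * m : ℕ) : ℤ)).re)) := by
  have hvol : ∀ n : ℕ, 1 ≤ n → coef volume n = 0 := fun n hn =>
    Q241.FP.integral_fourier n (by omega)
  have hself : ¬ Measure.MutuallySingular (volume : Measure UnitAddCircle) volume := by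
    intro h
    have h1 := Q241.FP.volume_prob
    rw [Measure.MutuallySingular.self_iff] at h
    have h2 := h1.measure_univ
    rw [h] at h2
    simp at h2
  refine ⟨fun S hS h2 => ⟨⟨?_, ?_⟩, fun a ha hsum => ⟨?_, ?_⟩⟩, fun a ha hsum => ⟨?_, ?_⟩⟩
  · intro h μ hμ
    refine ⟨1, le_rfl, ?_⟩
    rw [h μ hμ, hvol 1 le_rfl]
    simp
  · intro h
    by_contra hcon
    have hsum : Summable (fun n : ℕ => (1 / 2 : ℝ) ^ n) :=
      summable_geometric_of_lt_one (by norm_num) (by norm_num)
    obtain ⟨ν, h3, _, _, κ, hκ, h5⟩ := exists_bad hS h2 (a := fun n : ℕ => (1 / 2 : ℝ) ^ n)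
      (fun n => by positivity) hsum hcon
    obtain ⟨n, hn, h6⟩ := h ν h3
    have h7 := h5 n hn
    have h8 : 0 < κ * (1 / 2 : ℝ) ^ n := by positivity
    have h9 : κ * (1 / 2 : ℝ) ^ n ≤ (coef ν n).re := h7
    linarith
  · intro h μ hμ hs
    rw [h μ hμ] at hs
    exact absurd hs hself
  · intro h
    by_contra hcon
    obtain ⟨ν, h3, h4, h5, κ, hκ, h6⟩ := exists_bad hS h2 ha hsum hcon
    obtain ⟨n, hn, h7⟩ := h ν h3 h5 h4 κ hκ
    exact absurd (h6 n hn) (not_le.mpr h7)
  · intro hcon
    have hS : ∀ s ∈ ({2, 3} : Finset ℕ), 1 ≤ s := by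
      intro s hs
      simp only [Finset.mem_insert, Finset.mem_singleton] at hs
      omega
    obtain ⟨ν, h3, h4, h5, κ, hκ, h6⟩ := exists_bad hS ⟨2, by simp, le_rfl⟩ ha hsum hcon
    refine ⟨ν, h3, h5, h4, κ, hκ, fun i j m hm => ?_⟩
    have hp := h3.1
    have hinv := (Q241.FP.inv_iff {2, 3} ν).mp h3.2.2
    have h2 : ∀ i : ℕ, ∀ n : ℤ, coef ν ((2 : ℤ) ^ i * n) = coef ν n := by
      intro i
      induction i with
      | zero => intro n; simp
      | succ i ih =>
        intro n
        rw [pow_succ, mul_assoc, ih]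
        have := hinv 2 (by simp) n
        exact_mod_cast this
    have h3' : ∀ j : ℕ, ∀ n : ℤ, coef ν ((3 : ℤ) ^ j * n) = coef ν n := by
      intro j
      induction j with
      | zero => intro n; simp
      | succ j ih =>
        intro n
        rw [pow_succ, mul_assoc, ih]
        have := hinv 3 (by simp) n
        exact_mod_cast this
    have h7 : ((2 ^ i * 3 ^ j * m : ℕ) : ℤ) = (2 : ℤ) ^ i * ((3 : ℤ) ^ j * m) := by
      push_cast; ring
    rw [h7, h2, h3']
    exact h6 m hm
  · rintro ⟨μ, h1, h2, -⟩ h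
    rw [h μ h1] at h2
    exact hself h2

end Pool.Agent.Results.MP_e27144_an.OneNonpositiveCoefficient
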