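import Pool.Agent.Q99.WS.Main

/-!
Let `p, q ≥ 2` be coprime. Outside a set of packing dimension zero every `×p, ×q` orbit is
equidistributed, with respect to the full Lebesgue measure, in arbitrarily late multiplicative
windows `X ≤ p ^ a * q ^ b < H X`. The set of the points for which the equidistributed windows have
lower density at most `s` has Hausdorff dimension exactly `s`. The points which are generic along
windows for a measure other than Lebesgue measure form a set of packing dimension zero.
-/

set_option autoImplicit false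

open MeasureTheory Filter Topology

namespace Pool.Agent.Results.MP_e27144_an.WindowSpectrum

open Classical in
/-- The window of the numbers `n = p ^ a * q ^ b` with `X ≤ n < Y`. -/
noncomputable def window (p q : ℕ) (X Y : ℝ) : Finset ℕ :=
  (Finset.range ⌈Y⌉₊).filter fun n => (∃ a b : ℕ, n = p ^ a * q ^ b) ∧ X ≤ n

open Classical in
/-- The number of the `n` in the window such that `n x` lies in the closed arc of centre `c` and
radius `r`. -/
noncomputable def visits (p q : ℕ) (X Y : ℝ) (x c : UnitAddCircle) (r : ℝ) : ℕ :=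
  ((window p q X Y).filter fun n => ‖n • x - c‖ ≤ r).card

/-- The orbit of `x` is `ε`-equidistributed in the window `X ≤ n < H X`: all arcs are visited with a
frequency equal to their length, up to `ε`. -/
def Equidistributed (p q : ℕ) (ε H X : ℝ) (x : UnitAddCircle) : Prop :=
  (window p q X (H * X)).Nonempty ∧ ∀ c : UnitAddCircle, ∀ r : ℝ, 0 ≤ r → r ≤ 1 / 2 →
    |(visits p q X (H * X) x c r : ℝ) - 2 * r * (window p q X (H * X)).card| ≤
      ε * (window p q X (H * X)).card

open Classical in
/-- The number of the scales `k < N` such that the orbit of `x` is `ε`-equidistributed in the window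
`2 ^ k ≤ n < H 2 ^ k`. -/
noncomputable def goodScales (p q : ℕ) (ε H : ℝ) (N : ℕ) (x : UnitAddCircle) : ℕ :=
  ((Finset.range N).filter fun k => Equidistributed p q ε H ((2 : ℝ) ^ k) x).card

/-- The lower density of the scales with an `ε`-equidistributed window of ratio `H`. -/
noncomputable def lowerDensity (p q : ℕ) (ε H : ℝ) (x : UnitAddCircle) : ℝ :=
  liminf (fun N : ℕ => (goodScales p q ε H N x : ℝ) / N) atTop

/-- The upper density of the scales with an `ε`-equidistributed window of ratio `H`. -/
noncomputable def upperDensity (p q : ℕ) (ε H : ℝ) (x : UnitAddCircle) : ℝ :=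
  limsup (fun N : ℕ => (goodScales p q ε H N x : ℝ) / N) atTop

/-- The packing dimension of `E` is at most `s`: for every `s' > s` the set `E` is contained in a
countable union of sets `A j` each of which is covered, for all `N ≥ 1`, by at most `C_j N ^ s'`
arcs of radius `1 / N` (upper Minkowski dimension at most `s'`). -/
def PackingDimLE (E : Set UnitAddCircle) (s : ℝ) : Prop :=
  ∀ s' : ℝ, s < s' → ∃ A : ℕ → Set UnitAddCircle, E ⊆ ⋃ j, A j ∧ ∀ j, ∃ C : ℝ, ∀ N : ℕ, 1 ≤ N →
    ∃ F : Finset UnitAddCircle, (F.card : ℝ) ≤ C * (N : ℝ) ^ s' ∧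
      ∀ x ∈ A j, ∃ y ∈ F, dist x y ≤ 1 / N

/-- The point `x` is generic for the measure `μ` along windows: for every continuous function the
averages over the windows `X ≤ n < H X` are close to the integral, for large `H` and for
`X ≥ X₀(H)`. -/
def WindowGeneric (p q : ℕ) (μ : Measure UnitAddCircle) (x : UnitAddCircle) : Prop :=
  ∀ f : UnitAddCircle → ℝ, Continuous f → ∀ ε : ℝ, 0 < ε → ∃ H₀ : ℕ, ∀ H : ℕ, H₀ ≤ H →
    ∃ X₀ : ℝ, ∀ X : ℝ, X₀ ≤ X →
      |∑ n ∈ window p q X (H * X), f (n • x) - (∫ y, f y ∂μ) * (window p q X (H * X)).card| ≤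
        ε * (window p q X (H * X)).card

/-- **Equidistribution in multiplicative windows: exact dimensions.** Let `p, q ≥ 2` be coprime.
1. For every `0 ≤ s ≤ 1` the set of the points `x` for which, for some `ε > 0` and arbitrarily large
ratios `H`, the scales `k` with an `ε`-equidistributed window `2 ^ k ≤ p ^ a * q ^ b < H 2 ^ k`
have lower density at most `s` has Hausdorff dimension exactly `s`.
2. For every `s ≥ 0` the set of the points for which the corresponding upper density is at most `s`
has packing dimension at most `s`. For `s = 0`: outside a set of packing dimension zero, for every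
`ε > 0` and all large `H` the orbit is `ε`-equidistributed in infinitely many (and even in a
positive upper density of the) windows.
3. The set of the points which are window-generic for some probability measure other than Lebesgue
measure has packing dimension zero. -/
theorem result (p q : ℕ) (hp : 2 ≤ p) (hq : 2 ≤ q) (hpq : Nat.Coprime p q) :
    (∀ s : ℝ, 0 ≤ s → s ≤ 1 →
      dimH {x : UnitAddCircle | ∃ ε : ℝ, 0 < ε ∧ ∀ H₀ : ℕ, ∃ H : ℕ, H₀ ≤ H ∧
        lowerDensity p q ε H x ≤ s} = ENNReal.ofReal s) ∧
    (∀ s : ℝ, 0 ≤ s →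
      PackingDimLE {x : UnitAddCircle | ∃ ε : ℝ, 0 < ε ∧ ∀ H₀ : ℕ, ∃ H : ℕ, H₀ ≤ H ∧
        upperDensity p q ε H x ≤ s} s) ∧
    PackingDimLE {x : UnitAddCircle | ∃ μ : Measure UnitAddCircle, IsProbabilityMeasure μ ∧
      μ ≠ volume ∧ WindowGeneric p q μ x} 0 := by
  refine ⟨fun s hs0 hs1 => Pool.Agent.Q99.WS.spectrum hp hq hpq hs0 hs1,
    fun s hs0 => Pool.Agent.Q99.WS.pack_upper hp hq hpq hs0, fun s' hs' => ?_⟩
  obtain ⟨A, hA, hA'⟩ := Pool.Agent.Q99.WS.pack_upper hp hq hpq (le_refl (0 : ℝ)) s' hs'
  exact ⟨A, (Pool.Agent.Q99.WS.generic_sub hp hq).trans hA, hA'⟩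

end Pool.Agent.Results.MP_e27144_an.WindowSpectrum
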